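import Pool.Agent.H8.DI.Targets

/-! Document orders of finite forest orders. -/

set_option autoImplicit false

namespace Pool.Agent.H79.DI

open Pool.Agent.H8.DI

theorem doc {A : Type} {r : A → A → Prop} (hi : ∀ a, ¬ r a a)
    (ht : ∀ a b c, r a b → r b c → r a c)
    (hf : ∀ a b c, r a c → r b c → a = b ∨ r a b ∨ r b a) :
    ∀ (n : ℕ) (s : Finset A), s.card = n → ∃ f : A → ℕ,
      (∀ a ∈ s, ∀ b ∈ s, f a = f b → a = b) ∧ (∀ a ∈ s, ∀ b ∈ s, r a b → f a < f b) ∧
      ∀ a ∈ s, ∀ b ∈ s, ∀ c ∈ s, r a c → f a < f b → f b < f c → r a b := by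
  classical
  intro n
  induction n using Nat.strong_induction_on with
  | _ n ih =>
    intro s hs
    rcases s.eq_empty_or_nonempty with h0 | h0
    · subst h0
      exact ⟨fun _ => 0, by simp, by simp, by simp⟩
    obtain ⟨x, hx, hmin⟩ := Finset.exists_min_image s
      (fun a => (s.filter (fun b => r b a)).card) h0
    have hx0 : ∀ b ∈ s, ¬ r b x := by
      intro b hb hr
      have h1 := hmin b hb
      have h2 : s.filter (fun a => r a b) ⊂ s.filter (fun a => r a x) := by
        rw [Finset.ssubset_iff_of_subset]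
        · exact ⟨b, Finset.mem_filter.mpr ⟨hb, hr⟩, fun h => hi b (Finset.mem_filter.mp h).2⟩
        · intro a ha
          rw [Finset.mem_filter] at ha ⊢
          exact ⟨ha.1, ht _ _ _ ha.2 hr⟩
      have h3 := Finset.card_lt_card h2
      omega
    obtain ⟨T, hT⟩ : ∃ T, T = s.filter (fun b => r x b) := ⟨_, rfl⟩
    obtain ⟨R, hR⟩ : ∃ R, R = s.filter (fun b => b ≠ x ∧ ¬ r x b) := ⟨_, rfl⟩
    have hTm : ∀ b, b ∈ T ↔ b ∈ s ∧ r x b := by
      intro b
      rw [hT, Finset.mem_filter]
    have hRm : ∀ b, b ∈ R ↔ b ∈ s ∧ b ≠ x ∧ ¬ r x b := by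
      intro b
      rw [hR, Finset.mem_filter]
    have hTc : T.card < n := by
      rw [← hs]
      refine Finset.card_lt_card ((Finset.ssubset_iff_of_subset ?_).mpr ⟨x, hx, ?_⟩)
      · exact fun b hb => ((hTm b).mp hb).1
      · exact fun h => hi x ((hTm x).mp h).2
    have hRc : R.card < n := by
      rw [← hs]
      refine Finset.card_lt_card ((Finset.ssubset_iff_of_subset ?_).mpr ⟨x, hx, ?_⟩)
      · exact fun b hb => ((hRm b).mp hb).1
      · exact fun h => ((hRm x).mp h).2.1 rfl
    obtain ⟨f, f1, f2, f3⟩ := ih _ hTc T rfl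
    obtain ⟨g, g1, g2, g3⟩ := ih _ hRc R rfl
    obtain ⟨M, hM⟩ : ∃ M, ∀ b ∈ T, f b ≤ M := ⟨T.sup f, fun b hb => Finset.le_sup hb⟩
    have hcl : ∀ b ∈ s, b = x ∨ b ∈ T ∨ b ∈ R := by
      intro b hb
      by_cases h1 : b = x
      · exact Or.inl h1
      · by_cases h2 : r x b
        · exact Or.inr (Or.inl ((hTm b).mpr ⟨hb, h2⟩))
        · exact Or.inr (Or.inr ((hRm b).mpr ⟨hb, h1, h2⟩))
    have hxT : x ∉ T := fun h => hi x ((hTm x).mp h).2
    have hTx : ∀ b ∈ T, b ≠ x := fun b hb h => hxT (h ▸ hb)
    have hRx : ∀ b ∈ R, b ≠ x := fun b hb => ((hRm b).mp hb).2.1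
    have hRT : ∀ b ∈ R, b ∉ T := fun b hb h => ((hRm b).mp hb).2.2 ((hTm b).mp h).2
    obtain ⟨F, hF⟩ : ∃ F : A → ℕ, F = fun b => if b = x then 0 else if b ∈ T then f b + 1
      else g b + (M + 2) := ⟨_, rfl⟩
    have Fx : F x = 0 := by rw [hF]; exact if_pos rfl
    have FT : ∀ b ∈ T, F b = f b + 1 := by
      intro b hb
      simp only [hF, if_neg (hTx b hb), if_pos hb]
    have FR : ∀ b ∈ R, F b = g b + (M + 2) := by
      intro b hb
      simp only [hF, if_neg (hRx b hb), if_neg (hRT b hb)]
    have rT : ∀ a ∈ T, ∀ b ∈ s, r a b → b ∈ T := fun a ha b hb hr =>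
      (hTm b).mpr ⟨hb, ht _ _ _ ((hTm a).mp ha).2 hr⟩
    have rR : ∀ a ∈ R, ∀ b ∈ s, r a b → b ∈ R := by
      intro a ha b hb hr
      have ha' := (hRm a).mp ha
      rcases hcl b hb with h | h | h
      · subst h
        exact absurd hr (hx0 a ha'.1)
      · rcases hf a x b hr ((hTm b).mp h).2 with h1 | h1 | h1
        · exact absurd h1 ha'.2.1
        · exact absurd h1 (hx0 a ha'.1)
        · exact absurd h1 ha'.2.2
      · exact h
    have rx : ∀ b ∈ s, r x b → b ∈ T := fun b hb hr => (hTm b).mpr ⟨hb, hr⟩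
    refine ⟨F, ?_, ?_, ?_⟩
    · intro a ha b hb hab
      rcases hcl a ha with h | h | h <;> rcases hcl b hb with h' | h' | h'
      · rw [h, h']
      · rw [h, Fx, FT b h'] at hab
        omega
      · rw [h, Fx, FR b h'] at hab
        omega
      · rw [h', Fx, FT a h] at hab
        omega
      · rw [FT a h, FT b h'] at hab
        exact f1 a h b h' (by omega)
      · have := hM a h
        rw [FT a h, FR b h'] at hab
        omega
      · rw [h', Fx, FR a h] at hab
        omega
      · have := hM b h'
        rw [FR a h, FT b h'] at hab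
        omega
      · rw [FR a h, FR b h'] at hab
        exact g1 a h b h' (by omega)
    · intro a ha b hb hr
      rcases hcl a ha with h | h | h
      · rw [h] at hr ⊢
        rw [Fx, FT b (rx b hb hr)]
        omega
      · have h' := rT a h b hb hr
        rw [FT a h, FT b h']
        have := f2 a h b h' hr
        omega
      · have h' := rR a h b hb hr
        rw [FR a h, FR b h']
        have := g2 a h b h' hr
        omega
    · intro a ha b hb c hc hr h1 h2
      rcases hcl a ha with h | h | h
      · rw [h] at hr h1 ⊢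
        have hc' := rx c hc hr
        rw [FT c hc'] at h2
        have := hM c hc'
        rcases hcl b hb with h' | h' | h'
        · rw [h'] at h1
          omega
        · exact ((hTm b).mp h').2
        · rw [FR b h'] at h2
          omega
      · have hc' := rT a h c hc hr
        rw [FT c hc'] at h2
        have := hM c hc'
        rw [FT a h] at h1
        rcases hcl b hb with h' | h' | h'
        · rw [h', Fx] at h1
          omega
        · rw [FT b h'] at h1 h2
          exact f3 a h b h' c hc' hr (by omega) (by omega)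
        · rw [FR b h'] at h2
          omega
      · have hc' := rR a h c hc hr
        rw [FR c hc'] at h2
        rw [FR a h] at h1
        rcases hcl b hb with h' | h' | h'
        · rw [h', Fx] at h1
          omega
        · rw [FT b h'] at h1
          have := hM b h'
          omega
        · rw [FR b h'] at h1 h2
          exact g3 a h b h' c hc' hr (by omega) (by omega)

theorem pf_dr : K_DR := by
  intro A _ r hr
  have : Fintype A := Fintype.ofFinite A
  obtain ⟨hi, ht, hf⟩ := hr
  obtain ⟨f, f1, f2, f3⟩ := doc hi ht hf _ Finset.univ rfl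
  refine ⟨fun a b => f a < f b, ?_, ?_, ?_⟩
  · exact {
      trichotomous := fun a b h1 h2 =>
        f1 a (Finset.mem_univ _) b (Finset.mem_univ _) (by omega)
      irrefl := fun a h => (lt_irrefl _ h)
      trans := fun a b c h1 h2 => lt_trans h1 h2 }
  · exact fun a b h => f2 a (Finset.mem_univ _) b (Finset.mem_univ _) h
  · exact fun a b c h h1 h2 => f3 a (Finset.mem_univ _) b (Finset.mem_univ _) c
      (Finset.mem_univ _) h h1 h2

end Pool.Agent.H79.DI
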