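import Pool.Agent.H8.DI.Targets

/-! Nets: unique labels, rectangles, tilings. -/

set_option autoImplicit false

namespace Pool.Agent.H79.DI

open Pool.Agent.H69.Sp Pool.Agent.H69.Mt Pool.Agent.H16.TO Pool.Agent.H8.PL Pool.Agent.H8.DI

theorem pf_nu : K_NU := by
  intro C Q _ U Hh Vv α β lx ly q ρ υ hN
  have key : ∀ n c d, α c + β c = n → α c = α d → β c = β d → c = d := by
    intro n
    induction n using Nat.strong_induction_on with
    | _ n ih =>
      intro c d hn ha hb
      by_cases h1 : 1 < α c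
      · obtain ⟨c', hc'⟩ := hN.r3 c h1
        obtain ⟨d', hd'⟩ := hN.r3 d (ha ▸ h1)
        have e1 := hN.r1 c' c hc'
        have e2 := hN.r1 d' d hd'
        have e3 : c' = d' := ih (α c' + β c') (by omega) c' d' rfl (by omega) (by omega)
        subst e3
        exact hN.r4 c' c d hc' hd'
      · by_cases h2 : 1 < β c
        · obtain ⟨c', hc'⟩ := hN.u3 c h2
          obtain ⟨d', hd'⟩ := hN.u3 d (hb ▸ h2)
          have e1 := hN.u1 c' c hc'
          have e2 := hN.u1 d' d hd'
          have e3 : c' = d' := ih (α c' + β c') (by omega) c' d' rfl (by omega) (by omega)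
          subst e3
          exact hN.u4 c' c d hc' hd'
        · have p1 := hN.pos c
          obtain ⟨e, -, hu⟩ := hN.cor
          rw [hu c ⟨by omega, by omega⟩, hu d ⟨by omega, by omega⟩]
  intro c d ha hb
  exact key _ c d rfl ha hb

/-- exchange of the two directions -/
theorem net_swap {C Q : Type} {U : Bool → Bool → Bool → Bool → Q → Prop}
    {Hh Vv : Q → Q → Prop} {α β : C → ℕ} {lx ly : C → Bool} {q : C → Q} {ρ υ : C → C → Prop}
    (hN : Net U Hh Vv α β lx ly q ρ υ) :
    Net (fun a b c d t => U c d a b t) Vv Hh β α ly lx q υ ρ where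
  pos c := (hN.pos c).symm
  un c := hN.un c
  cor := by
    obtain ⟨c, h1, h2⟩ := hN.cor
    exact ⟨c, h1.symm, fun d hd => h2 d hd.symm⟩
  r1 := hN.u1
  r2 := hN.u2
  r3 := hN.u3
  r4 := hN.u4
  u1 := hN.r1
  u2 := hN.r2
  u3 := hN.r3
  u4 := hN.r4

/-- the first row -/
theorem row {C Q : Type} [Finite C] {U : Bool → Bool → Bool → Bool → Q → Prop}
    {Hh Vv : Q → Q → Prop} {α β : C → ℕ} {lx ly : C → Bool} {q : C → Q} {ρ υ : C → C → Prop}
    (hN : Net U Hh Vv α β lx ly q ρ υ) (hu : ∀ c d, α c = α d → β c = β d → c = d) :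
    ∃ W, 0 < W ∧ (∀ c, β c = 1 → α c ≤ W ∧ (lx c = true ↔ α c = W)) ∧
      ∀ a, 1 ≤ a → a ≤ W → ∃ c, α c = a ∧ β c = 1 := by
  obtain ⟨c0, h0, -⟩ := hN.cor
  have hfin : {c | β c = 1}.Finite := Set.toFinite _
  obtain ⟨cw, hw, hmax⟩ := Set.exists_max_image {c | β c = 1} α hfin ⟨c0, h0.2⟩
  have hw : β cw = 1 := hw
  have hlw : lx cw = true := by
    by_contra h
    rw [Bool.not_eq_true] at h
    obtain ⟨d, hd⟩ := hN.r2 cw h
    have e := hN.r1 cw d hd
    have := hmax d (show β d = 1 by omega)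
    omega
  have hex : ∀ m, m < α cw → ∃ c, α c = α cw - m ∧ β c = 1 := by
    intro m
    induction m with
    | zero => exact fun _ => ⟨cw, by omega, hw⟩
    | succ m ih =>
      intro hm
      obtain ⟨c, h1, h2⟩ := ih (by omega)
      obtain ⟨c', hc'⟩ := hN.r3 c (by omega)
      have e := hN.r1 c' c hc'
      exact ⟨c', by omega, by omega⟩
  have hex2 : ∀ a, 1 ≤ a → a ≤ α cw → ∃ c, α c = a ∧ β c = 1 := by
    intro a h1 h2
    obtain ⟨c, h3, h4⟩ := hex (α cw - a) (by omega)
    exact ⟨c, by omega, h4⟩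
  refine ⟨α cw, (hN.pos cw).1, fun c hc => ⟨hmax c hc, fun hl => ?_, fun ha => ?_⟩, hex2⟩
  · by_contra hne
    have hle := hmax c hc
    obtain ⟨d, h1, h2⟩ := hex2 (α c + 1) (by omega) (by omega)
    obtain ⟨c', hc'⟩ := hN.r3 d (by have := (hN.pos c).1; omega)
    have e := hN.r1 c' d hc'
    have e2 : c' = c := hu c' c (by omega) (by omega)
    subst e2
    rw [hl] at e
    exact absurd e.2.2.1 (by simp)
  · rw [hu c cw ha (by omega)]
    exact hlw

theorem pf_nr (hNU : K_NU) : K_NR := by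
  intro C Q _ U Hh Vv α β lx ly q ρ υ hN
  have hu := hNU C Q U Hh Vv α β lx ly q ρ υ hN
  obtain ⟨W, hW, w1, w2⟩ := row hN hu
  obtain ⟨H, hH, v1, v2⟩ := row (net_swap hN) (fun c d h1 h2 => hu c d h2 h1)
  have key : ∀ n c, α c + β c = n → α c ≤ W ∧ β c ≤ H ∧ (lx c = true ↔ α c = W) ∧
      (ly c = true ↔ β c = H) := by
    intro n
    induction n using Nat.strong_induction_on with
    | _ n ih =>
      intro c hn
      have p := hN.pos c
      have h1 : α c ≤ W ∧ (lx c = true ↔ α c = W) := by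
        by_cases hb : β c = 1
        · exact w1 c hb
        · obtain ⟨c', hc'⟩ := hN.u3 c (by omega)
          have e := hN.u1 c' c hc'
          have i := ih (α c' + β c') (by omega) c' rfl
          rw [e.2.1, e.2.2.2.1]
          exact ⟨i.1, i.2.2.1⟩
      have h2 : β c ≤ H ∧ (ly c = true ↔ β c = H) := by
        by_cases ha : α c = 1
        · exact v1 c ha
        · obtain ⟨c', hc'⟩ := hN.r3 c (by omega)
          have e := hN.r1 c' c hc'
          have i := ih (α c' + β c') (by omega) c' rfl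
          rw [e.2.1, e.2.2.2.1]
          exact ⟨i.2.1, i.2.2.2⟩
      exact ⟨h1.1, h2.1, h1.2, h2.2⟩
  refine ⟨W, H, hW, hH, fun c => key _ c rfl, ?_⟩
  intro a b ha1 ha2 hb1 hb2
  induction b, hb1 using Nat.le_induction with
  | base => exact w2 a ha1 ha2
  | succ b hb ih =>
    obtain ⟨c, h1, h2⟩ := ih (by omega)
    have k := (key _ c rfl).2.2.2
    have hl : ly c = false := by
      rw [← Bool.not_eq_true, k]
      omega
    obtain ⟨d, hd⟩ := hN.u2 c hl
    have e := hN.u1 c d hd
    exact ⟨d, by omega, by omega⟩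

theorem pf_nt (hNU : K_NU) (hNR : K_NR) : K_NT := by
  intro C Q _ U Hh Vv α β lx ly q ρ υ hN
  have hu := hNU C Q U Hh Vv α β lx ly q ρ υ hN
  obtain ⟨W, H, hW, hH, h1, h2⟩ := hNR C Q U Hh Vv α β lx ly q ρ υ hN
  choose cell hcell using h2
  classical
  let f : ℕ → ℕ → C := fun x y =>
    if h : x + 1 ≤ W ∧ y + 1 ≤ H then cell (x + 1) (y + 1) (Nat.le_add_left 1 x) h.1
      (Nat.le_add_left 1 y) h.2 else Classical.choice ⟨(hN.cor).choose⟩
  have hf : ∀ x y, x < W → y < H → α (f x y) = x + 1 ∧ β (f x y) = y + 1 := by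
    intro x y hx hy
    have hh : x + 1 ≤ W ∧ y + 1 ≤ H := ⟨hx, hy⟩
    have e : f x y = cell (x + 1) (y + 1) (Nat.le_add_left 1 x) hh.1 (Nat.le_add_left 1 y)
        hh.2 := dif_pos hh
    rw [e]
    exact hcell _ _ _ _ _ _
  refine ⟨W, H, hW, hH, ⟨fun x y => q (f x y), ?_, ?_, ?_⟩, ?_⟩
  · intro x hx y hy
    obtain ⟨ea, eb⟩ := hf x y hx hy
    have hun := hN.un (f x y)
    obtain ⟨-, -, l1, l2⟩ := h1 (f x y)
    have d1 : decide (α (f x y) = 1) = decide (x = 0) := by
      rw [ea, decide_eq_decide]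
      omega
    have d2 : decide (β (f x y) = 1) = decide (y = 0) := by
      rw [eb, decide_eq_decide]
      omega
    have d3 : lx (f x y) = decide (x + 1 = W) := by
      rw [ea] at l1
      by_cases h : x + 1 = W
      · rw [l1.mpr h, decide_eq_true h]
      · rw [decide_eq_false h]
        rw [← Bool.not_eq_true, l1]
        exact h
    have d4 : ly (f x y) = decide (y + 1 = H) := by
      rw [eb] at l2
      by_cases h : y + 1 = H
      · rw [l2.mpr h, decide_eq_true h]
      · rw [decide_eq_false h]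
        rw [← Bool.not_eq_true, l2]
        exact h
    rw [d1, d2, d3, d4] at hun
    exact hun
  · intro x y hx hy
    obtain ⟨ea, eb⟩ := hf x y (by omega) hy
    obtain ⟨ea', eb'⟩ := hf (x + 1) y hx hy
    have l1 := (h1 (f x y)).2.2.1
    have hl : lx (f x y) = false := by
      rw [← Bool.not_eq_true, l1]
      omega
    obtain ⟨d, hd⟩ := hN.r2 _ hl
    have e := hN.r1 _ _ hd
    have ed : d = f (x + 1) y := hu _ _ (by omega) (by omega)
    rw [ed] at e
    exact e.2.2.2.2
  · intro x y hx hy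
    obtain ⟨ea, eb⟩ := hf x y hx (by omega)
    obtain ⟨ea', eb'⟩ := hf x (y + 1) hx hy
    have l1 := (h1 (f x y)).2.2.2
    have hl : ly (f x y) = false := by
      rw [← Bool.not_eq_true, l1]
      omega
    obtain ⟨d, hd⟩ := hN.u2 _ hl
    have e := hN.u1 _ _ hd
    have ed : d = f x (y + 1) := hu _ _ (by omega) (by omega)
    rw [ed] at e
    exact e.2.2.2.2
  · intro g
    have : Fintype C := Fintype.ofFinite C
    rw [finsum_eq_sum_of_fintype, ← Finset.sum_product' (f := fun x y => g (x + 1) (y + 1))]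
    symm
    refine Finset.sum_bij' (fun p _ => f p.1 p.2) (fun c _ => (α c - 1, β c - 1)) ?_ ?_ ?_ ?_ ?_
    · intro p _
      exact Finset.mem_univ _
    · intro c _
      have p := hN.pos c
      have k := h1 c
      rw [Finset.mem_product, Finset.mem_range, Finset.mem_range]
      exact ⟨by omega, by omega⟩
    · intro p hp
      rw [Finset.mem_product, Finset.mem_range, Finset.mem_range] at hp
      obtain ⟨ea, eb⟩ := hf p.1 p.2 hp.1 hp.2
      rw [ea, eb]
      rfl
    · intro c _
      have p := hN.pos c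
      have k := h1 c
      obtain ⟨ea, eb⟩ := hf (α c - 1) (β c - 1) (by omega) (by omega)
      exact hu (f (α c - 1) (β c - 1)) c (by omega) (by omega)
    · intro p hp
      rw [Finset.mem_product, Finset.mem_range, Finset.mem_range] at hp
      obtain ⟨ea, eb⟩ := hf p.1 p.2 hp.1 hp.2
      rw [ea, eb]

end Pool.Agent.H79.DI
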